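import Pool.Agent.Lib.MP_12eaff_co.Frz.FD.Loc

set_option autoImplicit false
set_option linter.unusedSectionVars false

namespace Pool.Agent.Lib.MP_12eaff_co.Frz.FB

open Finset Pool.Agent.Lib.MP_12eaff_co.Frz.BK Pool.Agent.Lib.MP_12eaff_co.Frz.Acc2
open scoped Classical

variable {V : Type} [Fintype V] {G : SimpleGraph V} {D : ℕ}
variable {T : Tr G D} {Y W : Finset V} {q y x z e r1 : V} {g : V → ℕ} {m t k yl : ℕ}

open Tr IsA IsB

/-- A virtual event at a vertex with a port. -/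
def Vp (T : Tr G D) (e : V) : Prop := T.Vev e ∧ ∃ m ∈ T.Dm, G.Adj e m

/-- What the late vertex `e` costs outside `H`. -/
noncomputable def fo4 (T : Tr G D) (H : Finset V) (e : V) : ℕ :=
  ((T.R \ H).filter fun v => e ∈ T.Dr v).card + if Vp T e then 2 else 0

/-- The quiet children of `q` that drop `e` without a ticket. -/
noncomputable def Nq (T : Tr G D) (H : Finset V) (q e : V) : Finset V :=
  (T.ch q ∩ H).filter fun y => ¬ Loud T H y ∧ e ∈ Dq T y

namespace Fam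

theorem ev_cnt4 (h : IsC T) (f : Fam T Y W q) (m : e ∈ Y ∪ W) (a : G.Adj q e) (v : EV T z e e g)
    (n : z ∉ Y ∪ W) (ze : G.Adj z e) : (Nq T (Y ∪ W) q e).card ≤ 4 := by
  have cl : IsClq G (insert e Y) := (mem_union.1 m).elim
    (fun i => by rw [insert_eq_of_mem i]; exact f.cl.clq)
    fun i => CluA.clq_ins f.cl.clq fun w k => (f.cl.join w k e i).symm
  obtain ⟨w, w1, w', w2, w3⟩ := f.cl.far z (T.real z v.zR) n
  have c1 := (h.far2 v.zR cl (fun u k => f.cl.real u ((mem_insert.1 k).elim (· ▸ m)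
    (mem_union_left _))) (fun k => n ((mem_insert.1 k).elim (· ▸ m) (mem_union_left _)))
    ⟨w, mem_insert_of_mem w1, w', mem_insert_of_mem w2, w3⟩).2
  rw [← card_erase_add_one (mem_filter.2 ⟨mem_insert_self e Y, ze⟩ :
    e ∈ (insert e Y).filter (G.Adj z))] at c1
  have c2 := path_one (T := T) q z
  have hc := v.hc e v.eD
  have c3 : ((Y.erase z).filter fun y => G.Adj e y ∧ ¬ Uq G g e y).card ≤ 1 :=
    card_le_one.2 fun y p y' p' => by
      by_contra i
      simp only [mem_filter, mem_erase] at p p'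
      have l : ∀ y ∈ Y, y ≠ z → G.Adj e y → g y < D := fun y p k k' => by
        have d := f.cl.real y (mem_union_left _ p)
        rw [v.real y d, shift_o k'.ne.symm k]
        exact T.full z v.zR y d k
      exact hc.ne (f.cl.clq y p.1.2 y' p'.1.2 i) (TW.dbl hc
        ((card_le_card sdiff_subset).trans (h.deg' v.eD)) p.2.1 p'.2.1 (l y p.1.2 p.1.1 p.2.1)
        (l y' p'.1.2 p'.1.1 p'.2.1) p.2.2 p'.2.2)
  have s : Nq T (Y ∪ W) q e ⊆
      ((insert e Y).filter (G.Adj z)).erase e ∪ ((T.ch q).filter fun r => T.Anc r z) ∪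
        (Y.erase z).filter fun y => G.Adj e y ∧ ¬ Uq G g e y := fun y k => by
    obtain ⟨k1, k2, k3⟩ := mem_filter.1 k
    obtain ⟨k4, k5⟩ := mem_inter.1 k1
    obtain ⟨k6, k7⟩ := mem_filter.1 k3
    have yY := (f.chq k4 k5).1
    have d := (mem_sdiff.1 k6).1
    have ne := (mem_Dr.1 d).1.1.ne
    by_contra i
    simp only [mem_union, mem_filter, mem_insert, mem_erase, not_or, not_and, not_not] at i
    exact k7 (f.ev_tick m a v k4 k2 d (i.1.1 ne (.inr yY)) (i.1.2 k4) ne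
      (i.2 ⟨fun j => n (j ▸ k5), yY⟩ (mem_Dr.1 d).1.1.symm))
  have := (card_le_card s).trans ((card_union_le _ _).trans (add_le_add_left (card_union_le _ _) _))
  omega

theorem fo4_le (h : IsC T) (f : Fam T Y W q) (p : Par4 T Y W q m t k yl)
    (he : e ∈ (Y ∪ W) \ T.R) : fo4 T (Y ∪ W) e + (if e ∈ Y then t else 0) ≤ m + 2 := by
  have a := f.out_le h (mem_sdiff.1 he).1
  have b : ((T.R \ (Y ∪ W)).filter fun v => e ∈ T.Dr v).card + (nb G e ∩ T.Dm).card ≤
      (nb G e \ (Y ∪ W)).card := by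
    rw [← card_union_of_disjoint (disjoint_left.2 fun v p k =>
      T.real v (mem_sdiff.1 (mem_filter.1 p).1).1 (mem_inter.1 k).2)]
    exact card_le_card fun v p => (mem_union.1 p).elim
      (fun p => mem_sdiff.2 ⟨mem_nb.2 (mem_Dr.1 (mem_filter.1 p).2).1.1.symm,
        (mem_sdiff.1 (mem_filter.1 p).1).2⟩)
      fun p => mem_sdiff.2 ⟨(mem_inter.1 p).1, fun i => f.cl.real v i (mem_inter.1 p).2⟩
  have c : Vp T e → 0 < (nb G e ∩ T.Dm).card := fun ⟨_, u, u1, u2⟩ =>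
    card_pos.2 ⟨u, mem_inter.2 ⟨mem_nb.2 u2, u1⟩⟩
  have d := f.mem_out h (y := e)
  have := f.cardW2
  have := p.ht
  have := p.hm
  rw [show (if W = ∅ then 2 else 1) = 2 - tw W by unfold tw; split_ifs <;> rfl] at a
  have := p.t1
  unfold fo4
  split_ifs with i j <;> simp only [forall_true_left, *] at c d <;> omega

/-- A late vertex that costs something outside has few unpaid droppers inside. -/
theorem fo4_N (h : IsC T) (f : Fam T Y W q) (hD : 14 ≤ D) (p : Par4 T Y W q m t k yl)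
    (he : e ∈ (Y ∪ W) \ T.R) (n : fo4 T (Y ∪ W) e ≠ 0) :
    fo4 T (Y ∪ W) e + (Nq T (Y ∪ W) q e).card ≤ m + 6 := by
  have a := f.fo4_le h p he
  have := p.m2
  obtain ⟨m1, m2⟩ := mem_sdiff.1 he
  by_cases ad : G.Adj q e
  swap
  · rw [eq_empty_of_forall_notMem (s := Nq T (Y ∪ W) q e) fun y i => by
      obtain ⟨k1, -, k3⟩ := mem_filter.1 i
      exact ad ((f.c_dr h hD (mem_inter.1 k1).1 (mem_inter.1 k1).2).2.2 e
        (mem_inter.2 ⟨(mem_sdiff.1 (mem_filter.1 k3).1).1, m1⟩)), card_empty]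
    omega
  rcases ((T.R \ (Y ∪ W)).filter fun v => e ∈ T.Dr v).eq_empty_or_nonempty with i | ⟨z, l⟩
  · rw [fo4, i, card_empty, zero_add] at n ⊢
    split_ifs at n ⊢ with j
    · obtain ⟨⟨z, r1, g, v, nz⟩, -⟩ := j
      have : (Nq T (Y ∪ W) q e).card ≤ 6 := f.ev_cnt h m1 ad v fun i =>
        nz ((mem_insert.1 (f.sub v.zR i)).elim (· ▸ ad) fun j => (mem_union.1 m1).elim
          (fun l => f.cl.clq z j e l fun i => m2 (i ▸ v.zR)) (f.cl.join z j e))
      omega
    · exact absurd rfl n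
  · obtain ⟨l1, l2⟩ := mem_filter.1 l
    have := f.ev_cnt4 h m1 ad (ev_of_drop h (mem_sdiff.1 l1).1 l2 (f.cl.real e m1))
      (mem_sdiff.1 l1).2 (mem_Dr.1 l2).1.1
    omega

/-- The foreign cost of a cluster against the unpaid drops of the quiet children. -/
theorem alt4 (h : IsC T) (f : Fam T Y W q) (hD : 14 ≤ D) (p : Par4 T Y W q m t k yl) :
    ∑ e ∈ (Y ∪ W) \ T.R, fo4 T (Y ∪ W) e + t * yl ≤ (t + k + yl) * (m + 2) ∧
    (∑ e ∈ (Y ∪ W) \ T.R, fo4 T (Y ∪ W) e + (m + 2) ≤ (t + k + yl) * (m + 2) ∨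
      ∑ e ∈ (Y ∪ W) \ T.R, fo4 T (Y ∪ W) e + ∑ y ∈ (T.ch q ∩ (Y ∪ W)).filter
        fun y => ¬ Loud T (Y ∪ W) y, (Dq T y ∩ (Y ∪ W)).card ≤ (t + k + yl) * (m + 6)) := by
  have a : ∀ e ∈ (Y ∪ W) \ T.R, fo4 T (Y ∪ W) e ≤ m + 2 := fun e i =>
    le_of_add_le_left (f.fo4_le h p i)
  refine ⟨?_, ?_⟩
  · have b := sum_le_card_nsmul _ _ _ fun e i => f.fo4_le h p (e := e) i
    rw [p.la, smul_eq_mul, sum_add_distrib] at b
    refine le_trans (Nat.add_le_add_left ?_ _) b
    rw [← p.hy]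
    split_ifs with c
    · simp
    · obtain ⟨e, e1, e2⟩ := not_subset.1 c
      refine le_trans ?_ (single_le_sum (f := fun e => if e ∈ Y then t else 0)
        (fun _ _ => Nat.zero_le _) (mem_sdiff.2 ⟨mem_union_left _ e1, e2⟩))
      simp [e1]
  by_cases z : ∃ e ∈ (Y ∪ W) \ T.R, fo4 T (Y ∪ W) e = 0
  · obtain ⟨e, i, z⟩ := z
    left
    rw [← p.la, ← sum_erase_add _ _ i, z, add_zero, ← card_erase_add_one i, add_mul, one_mul]
    exact Nat.add_le_add_right (sum_le_card_nsmul _ _ _ fun e k => a e (mem_of_mem_erase k)) _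
  right
  have b := sum_le_card_nsmul _ _ _ fun e i => f.fo4_N h hD p (e := e) i fun j => z ⟨e, i, j⟩
  rw [p.la, smul_eq_mul, sum_add_distrib] at b
  refine le_trans (Nat.add_le_add_left ?_ _) b
  simp only [Nq, ← filter_filter, card_filter (fun y => _ ∈ Dq T y)]
  rw [sum_comm]
  refine sum_le_sum fun y i => ?_
  rw [← card_filter]
  exact card_le_card fun e k => mem_filter.2 ⟨f.Dr_late h (T.mem_ch.1 (mem_inter.1
    (mem_filter.1 i).1).1).1 (inter_subset_inter_right ((filter_subset _ _).trans sdiff_subset) k),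
      (mem_inter.1 k).1⟩

end Fam

end Pool.Agent.Lib.MP_12eaff_co.Frz.FB
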