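import Pool.Agent.Lib.MP_12eaff_co.Frz.FD.Pool
import Pool.Agent.Lib.MP_12eaff_co.Frz.FC.Led
import Pool.Agent.Lib.MP_12eaff_co.Frz.FB.Glue
import Pool.Agent.Lib.MP_12eaff_co.Frz.G.Ifc7

set_option autoImplicit false
set_option linter.unusedSectionVars false

namespace Pool.Agent.Lib.MP_12eaff_co.Frz.FB

open Finset Pool.Agent.Lib.MP_12eaff_co.Frz.BK Pool.Agent.Lib.MP_12eaff_co.Frz.Acc2
open scoped Classical

open Tr IsA IsB

/-- The interface inequality when there is no ticket. -/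
theorem IsC.iface4 {V : Type} [Fintype V] {G : SimpleGraph V} {D P : ℕ} {T : Tr G D} (h : IsC T)
    (nt : T.NoTix) (hD : 15 ≤ D) (hP : P + 11 ≤ D) :
    (P + 2) * ∑ e ∈ T.R, (T.CX e).card + 2 * ((Late T).filter (Vp T)).card <
      ∑ v ∈ T.R, (T.Dr v ∩ T.Dm).card + 4 * (T.R.filter fun e => T.CX e ≠ ∅).card := by
  have a := h.final3 (by omega) (Cm T) (O0 T)
  have b : ∀ y ∈ T.R, T.cost3 (Cm T) (O0 T) y + (T.Dr y).card + (dH T y).card + 3 ≤
      ((Ch T y).card + iu T y + (Dq T y).card + 3) + ((T.Dr y \ T.Dm).filter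
        fun u => ∃ x, T.Pr x y u ∧ O0 T x y).card + (T.Dr y ∩ T.Dm).card := fun y hy => by
    have e := h.card_Ch hy
    have := card_sdiff_add_card_inter (T.Dr y) T.Dm
    have := h.dH_le (p_R hy)
    have l : T.ch y = ∅ → (dH T y).card = 0 := fun l => card_eq_zero.2 (h.dH_leaf l)
    have := card_filter_add_card_filter_not (s := T.Dr y \ T.Dm) (T.HasQ (O0 T) y)
    have : ((T.Dr y \ T.Dm).filter (T.HasQ (O0 T) y)).card ≤ ((T.Dr y \ T.Dm).filter
        fun u => ∃ x, T.Pr x y u ∧ O0 T x y).card := card_le_card fun u k =>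
      mem_filter.2 ⟨(mem_filter.1 k).1, (mem_filter.1 k).2.resolve_right fun ⟨z, i, j⟩ =>
        nt z i y hy _ (mem_Dr.1 (mem_sdiff.1 (mem_filter.1 k).1).1).2.2 j⟩
    have : (T.ptN y).card = 0 := card_eq_zero.2 (eq_empty_of_forall_notMem fun u k =>
      have ⟨z, i, j⟩ := (mem_ptN.1 k).2
      nt z i y hy _ (T.lt y hy u (T.mem_NT.1 (mem_ptN.1 k).1).1) j)
    unfold Tr.cost3 iu Dq
    split_ifs at * with c
    · have := l c
      omega
    · omega
  have c : ∑ y ∈ T.R, (D + rich T y) + 2 * ∑ e ∈ T.R, (T.CX e).card = ∑ y ∈ T.R,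
      (D - 3 + (if T.Bd y = ∅ then 1 else 0) + 2 * (T.CX y).card + 3) := by
    rw [mul_sum, ← sum_add_distrib]
    exact sum_congr rfl fun y _ => by unfold rich; omega
  have := sum_le_sum b
  have := IsC.sum_dH T
  have := h.ledger4 nt hD hP
  rw [sum_add_distrib (g := fun _ => 3)] at c
  rw [add_mul]
  simp only [sum_add_distrib] at *
  omega

/-- The account without tickets for `D ≥ 15`. -/
theorem uthm7 {D : ℕ} (hD : 15 ≤ D) : UThm7 D (D - 9) 4 := fun V _ G U P h hU => by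
  refine ⟨_, mbC, clu (PG G U P) D (PD U P), elC (PG G U P) D (PD U P), fun _ _ => 0,
    mbC_clu _, fun T q t1 t2 t3 t4 nt => ?_⟩
  rw [← t2] at t4 ⊢
  have c : IsC T := isC_of_own t1 t3 (t2 ▸ stat_pg h) (t2 ▸ nok_pg h (by omega) hU) (by omega) t4
  have k := c.iface4 (P := D - 11) nt hD (by omega)
  rw [show D - 11 + 2 = D - 9 by omega] at k
  refine (Nat.add_le_add_left (Nat.mul_le_mul_left 2 (card_le_card fun e i => ?_)) _).trans_lt k
  exact mem_filter.2 ⟨late_sub c q (mem_filter.1 i).1, (mem_filter.1 i).2⟩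

end Pool.Agent.Lib.MP_12eaff_co.Frz.FB
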