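import Pool.Agent.Lib.MP_12eaff_co.Frz.FD.Evt

set_option autoImplicit false
set_option linter.unusedSectionVars false

namespace Pool.Agent.Lib.MP_12eaff_co.Frz.FB

open Finset Pool.Agent.Lib.MP_12eaff_co.Frz.BK Pool.Agent.Lib.MP_12eaff_co.Frz.Acc2
open scoped Classical

variable {V : Type} [Fintype V] {G : SimpleGraph V} {D : ℕ}
variable {T : Tr G D} {Y W : Finset V} {q y : V} {m t k yl P : ℕ}

theorem arith4 {D m t k yl u l Q N F a1 a2 a3 a4 b1 b2 b3 b4 : ℕ} (hD : 15 ≤ D) (m2 : 2 ≤ m)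
    (m5 : m ≤ 5) (t1 : t ≤ 1) (k1 : k ≤ t) (k2 : k + yl ≤ 1)
    (hA : l + u + Q + 1 + m + k + yl = D + 1) (h1 : a1 + u * min (m - 2) (t + k + yl) ≤ b1)
    (h2 : a1 + u * (k + yl) ≤ b1 + N) (h3 : a2 + l * (2 + k) ≤ b2) (h4 : a3 + Q * (1 + 2 * k) ≤ b3)
    (h5 : a4 + 3 + yl ≤ b4) (h6 : m = 2 → Q = 0 → a4 + 4 ≤ b4)
    (h7 : F + t * yl ≤ (t + k + yl) * (m + 2))
    (h8 : F + (m + 2) ≤ (t + k + yl) * (m + 2) ∨ F + N ≤ (t + k + yl) * (m + 6)) :
    a2 + a1 + a3 + a4 + F ≤ b2 + b1 + b3 + b4 := by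
  have : yl ≤ 1 - k := by omega
  interval_cases m <;> interval_cases t <;> interval_cases k <;> interval_cases yl <;>
    norm_num at h1 h2 h3 h4 h6 h7 h8 <;> omega

theorem Fam.pool4 (h : IsC T) (nt : T.NoTix) (f : Fam T Y W q) (hD : 15 ≤ D) (hP : P + 11 ≤ D) :
    ∑ y ∈ T.R ∩ (Y ∪ W), (X4 T P (Y ∪ W) y + 3) + ∑ e ∈ (Y ∪ W) \ T.R, fo4 T (Y ∪ W) e ≤
      ∑ y ∈ T.R ∩ (Y ∪ W), (D + rich T y + rc T y) := by
  obtain ⟨m, t, k, yl, p⟩ := f.par4 h (by omega)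
  obtain ⟨h7, h8⟩ := f.alt4 h (by omega) p
  obtain ⟨h5, h6⟩ := f.q_cost h nt hD hP p
  have hA' := p.hA
  have e1 := fun y a b c => f.c_quiet4 (P := P) h nt hD p (y := y) a b c
  have e2 := fun y a b c => f.c_loud (P := P) h nt hD p (y := y) a b c
  have e3 := fun y a b c d => f.e_cost4 h nt hD hP p (y := y) a b c d
  set H := Y ∪ W with hH
  set C := T.ch q ∩ H with hC
  set A := T.R ∩ H with hA
  set Q := (A \ T.ch q).erase q with hQ
  have qq : q ∉ T.ch q := fun k => lt_irrefl _ (Tr.d_ch k)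
  have qA : q ∈ A \ T.ch q := mem_sdiff.2 ⟨mem_inter.2 ⟨f.hq, f.mem⟩, qq⟩
  have eC : A ∩ T.ch q = C := by
    ext x
    simp only [hA, hC, mem_inter]
    exact ⟨fun k => ⟨k.2, k.1.2⟩, fun k => ⟨⟨(T.mem_ch.1 k.1).1, k.2⟩, k.1⟩⟩
  have sp : ∀ g : V → ℕ, ∑ y ∈ A, g y = ∑ y ∈ C.filter (Loud T H), g y +
      ∑ y ∈ C.filter fun y => ¬ Loud T H y, g y + ∑ y ∈ Q, g y + g q := fun g => by
    rw [sum_filter_add_sum_filter_not, ← sum_inter_add_sum_sdiff A (T.ch q), eC, add_assoc, hQ,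
      sum_erase_add _ _ qA]
  have cA : A.card = (C.filter (Loud T H)).card + (C.filter fun y => ¬ Loud T H y).card +
      Q.card + 1 := by simpa only [sum_const, smul_eq_mul, mul_one] using sp fun _ => 1
  have h1 := sum_le_sum (s := C.filter fun y => ¬ Loud T H y)
    (f := fun y => X4 T P H y + 3 + min (m - 2) (t + k + yl)) (g := fun y => D + rich T y + rc T y)
    fun y i => by
      have := (e1 y (mem_inter.1 (mem_filter.1 i).1).1 (mem_inter.1 (mem_filter.1 i).1).2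
        (mem_filter.1 i).2).1
      omega
  have h2 := sum_le_sum (s := C.filter fun y => ¬ Loud T H y)
    (f := fun y => X4 T P H y + 3 + (k + yl))
    (g := fun y => D + rich T y + rc T y + (Dq T y ∩ H).card) fun y i => by
      have := (e1 y (mem_inter.1 (mem_filter.1 i).1).1 (mem_inter.1 (mem_filter.1 i).1).2
        (mem_filter.1 i).2).2
      omega
  have h3 := sum_le_sum (s := C.filter (Loud T H)) (f := fun y => X4 T P H y + 3 + (2 + k))
    (g := fun y => D + rich T y + rc T y) fun y i => by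
      have := e2 y (mem_inter.1 (mem_filter.1 i).1).1 (mem_inter.1 (mem_filter.1 i).1).2
        (mem_filter.1 i).2
      omega
  have h4 := sum_le_sum (s := Q) (f := fun y => X4 T P H y + 3 + (1 + 2 * k))
    (g := fun y => D + rich T y + rc T y) fun y i => by
      obtain ⟨k1, k2⟩ := mem_erase.1 i
      obtain ⟨k3, k4⟩ := mem_sdiff.1 k2
      obtain ⟨k5, k6⟩ := mem_inter.1 k3
      have := e3 y k5 k6 k1 fun e => k4 (T.mem_ch.2 ⟨k5, (f.vis y k5 k6 k1).2.2.1, e⟩)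
      omega
  rw [sum_add_distrib (g := fun _ => _), sum_const, smul_eq_mul] at h1 h2 h3 h4
  rw [sum_add_distrib (g := fun y => (Dq T y ∩ H).card)] at h2
  rw [sp, sp]
  exact arith4 hD p.m2 p.m5 p.t1 p.k1 p.k2 (cA ▸ hA') h1 h2 h3 h4 (by omega) (fun a b => by
    have := h6 a fun y i => by_contra fun n => notMem_empty y (card_eq_zero.1 b ▸ mem_erase.2
      ⟨fun e => n (e ▸ mem_insert_self _ _), mem_sdiff.2 ⟨i, fun e => n (mem_insert_of_mem e)⟩⟩)
    omega) h7 h8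

/-- The foreign cost of a cluster, counted at the late vertices. -/
theorem Fam.fo_sum4 (h : IsC T) (f : Fam T Y W q) :
    ∑ v ∈ T.R, (Dq T v ∩ (Y ∪ W)).card + ∑ _e ∈ ((Late T).filter (Vp T)) ∩ (Y ∪ W), 2 ≤
    ∑ v ∈ T.R ∩ (Y ∪ W), (Dq T v ∩ (Y ∪ W)).card + ∑ e ∈ (Y ∪ W) \ T.R, fo4 T (Y ∪ W) e := by
  rw [← sum_inter_add_sum_sdiff T.R (Y ∪ W), add_assoc]
  unfold fo4
  rw [sum_add_distrib]
  refine Nat.add_le_add_left (add_le_add ?_ ?_) _
  · simp only [card_filter (fun v => _ ∈ T.Dr v)]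
    rw [sum_comm]
    refine sum_le_sum fun v p => (Dq_le4 _).trans ?_
    rw [← card_filter]
    exact card_le_card fun e k =>
      mem_filter.2 ⟨f.Dr_late h (mem_sdiff.1 p).1 k, (mem_inter.1 k).1⟩
  · rw [← sum_filter]
    exact sum_le_sum_of_subset fun e k => mem_filter.2 ⟨mem_sdiff.2 ⟨(mem_inter.1 k).2,
      (mem_filter.1 (mem_filter.1 (mem_inter.1 k).1).1).2.1⟩, (mem_filter.1 (mem_inter.1 k).1).2⟩

/-- The gifts are paid by the children, or by the clique side at a passage child. -/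
theorem rc_gv4 (T : Tr G D) (P : ℕ) : ∑ y ∈ T.R, rc T y + P * ∑ e ∈ T.R, (T.CX e).card ≤
    ∑ y ∈ T.R, gv4 T P y + 4 * (T.R.filter fun e => T.CX e ≠ ∅).card := by
  have a : ∑ y ∈ T.R, gv4 T P y = ∑ y ∈ T.R, ∑ x ∈ T.ch y, gv4 T P x := by
    rw [T.sum_sum_ch]
    exact sum_congr rfl fun x _ => by
      split_ifs with r
      exacts [if_pos r, rfl]
  rw [a, card_filter, mul_sum, mul_sum, ← sum_add_distrib, ← sum_add_distrib]
  refine sum_le_sum fun y _ => ?_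
  have b : P * (T.CX y).card ≤ ∑ x ∈ T.ch y, gv4 T P x := by
    rw [mul_comm]
    refine le_trans (card_nsmul_le_sum _ (gv4 T P) _ fun x i => ?_)
      (sum_le_sum_of_subset sdiff_subset)
    obtain ⟨i1, i2⟩ := T.mem_CX.1 i
    obtain ⟨-, i3, rfl⟩ := T.mem_ch.1 i1
    rw [gv4, if_neg i3, if_pos i2]
  unfold rc
  split_ifs with c d e
  · omega
  · rw [not_not.1 d, card_empty, mul_zero, add_zero, mul_zero, add_zero]
    refine sum_le_sum fun x i => ?_
    have o : x ∈ T.O y := by_contra fun n => d (ne_empty_of_mem (T.mem_CX.2 ⟨i, n⟩))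
    obtain ⟨-, i3, rfl⟩ := T.mem_ch.1 i
    rw [gv4, if_neg i3, if_neg (not_not.2 o), if_pos c]
  · omega
  · omega

theorem IsC.ledger4 (h : IsC T) (nt : T.NoTix) (hD : 15 ≤ D) (hP : P + 11 ≤ D) :
    ∑ y ∈ T.R, ((Ch T y).card + iu T y + (Dq T y).card + 3) + P * ∑ e ∈ T.R, (T.CX e).card +
      2 * ((Late T).filter (Vp T)).card ≤
      ∑ y ∈ T.R, (D + rich T y) + 4 * (T.R.filter fun e => T.CX e ≠ ∅).card := by
  set F := univ.filter fun p : Finset V × Finset V => ∃ q, Fam T p.1 p.2 q with hF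
  have mF : ∀ y, y ∈ F.biUnion (fun p => p.1 ∪ p.2) ↔ InH T y := fun y => by
    simp only [hF, mem_biUnion, mem_filter, mem_univ, true_and, InH]
    exact ⟨fun ⟨p, ⟨q, f⟩, k⟩ => ⟨_, _, q, f, k⟩, fun ⟨Y, W, q, f, k⟩ => ⟨(Y, W), ⟨q, f⟩, k⟩⟩
  have d : (F : Set (Finset V × Finset V)).PairwiseDisjoint fun p => p.1 ∪ p.2 :=
    fun p a p' b ne => disjoint_left.2 fun u k k' => by
      obtain ⟨q, f⟩ := (mem_filter.1 a).2
      obtain ⟨q', f'⟩ := (mem_filter.1 b).2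
      obtain ⟨e, e', -⟩ := f.uniq h (by omega) f' k k'
      exact ne (Prod.ext e e')
  have s := sum_split F _ d
  have a1 := sum_le_sum (s := F) fun p a => (mem_filter.1 a).2.choose_spec.pool4 h nt hD hP
  have a0 := sum_le_sum (s := F) fun p a => (mem_filter.1 a).2.choose_spec.fo_sum4 h
  have a2 := sum_le_sum (s := T.R \ F.biUnion fun p => p.1 ∪ p.2)
    (f := fun y => (Ch T y).card + iu T y + gv4 T P y + 3) (g := fun y => D + rich T y + rc T y)
    fun y k => by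
      have := h.free4 (P := P) nt (by omega) (by omega) (mem_sdiff.1 k).1
        fun z => (mem_sdiff.1 k).2 ((mF y).2 z)
      omega
  have a3 := s ((Late T).filter (Vp T)) fun _ => 2
  rw [sum_eq_zero (s := (Late T).filter (Vp T) \ _) fun e k => absurd
    ((mF e).2 (mem_filter.1 (mem_filter.1 (mem_sdiff.1 k).1).1).2.2) (mem_sdiff.1 k).2,
    sum_const, smul_eq_mul] at a3
  have a4 : ∑ y ∈ T.R, (Dq T y).card ≤ ∑ p ∈ F, ∑ v ∈ T.R, (Dq T v ∩ (p.1 ∪ p.2)).card := by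
    rw [sum_comm]
    refine sum_le_sum fun v hv => le_trans (card_le_card fun u k => ?_) card_biUnion_le
    obtain ⟨k1, k2⟩ := mem_sdiff.1 (mem_filter.1 k).1
    obtain ⟨p, a, b⟩ := mem_biUnion.1 ((mF u).2 (h.drop v hv u k1 k2).2)
    exact mem_biUnion.2 ⟨p, a, mem_inter.2 ⟨k, b⟩⟩
  have a5 := rc_gv4 T P
  have a6 := s T.R fun y => (Ch T y).card + iu T y + gv4 T P y + 3
  have a7 := s T.R fun y => D + rich T y + rc T y
  have a8 : ∑ p ∈ F, ∑ y ∈ T.R ∩ (p.1 ∪ p.2), (X4 T P (p.1 ∪ p.2) y + 3) =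
      ∑ p ∈ F, ∑ y ∈ T.R ∩ (p.1 ∪ p.2), ((Ch T y).card + iu T y + gv4 T P y + 3) +
      ∑ p ∈ F, ∑ y ∈ T.R ∩ (p.1 ∪ p.2), (Dq T y ∩ (p.1 ∪ p.2)).card := by
    rw [← sum_add_distrib]
    refine sum_congr rfl fun p _ => ?_
    rw [← sum_add_distrib]
    exact sum_congr rfl fun y _ => by unfold X4; omega
  have a9 : ∑ y ∈ T.R, ((Ch T y).card + iu T y + (Dq T y).card + 3) + ∑ y ∈ T.R, gv4 T P y =
      ∑ y ∈ T.R, ((Ch T y).card + iu T y + gv4 T P y + 3) + ∑ y ∈ T.R, (Dq T y).card := by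
    simp only [sum_add_distrib]
    omega
  rw [sum_add_distrib] at a1 a7
  rw [sum_add_distrib, sum_add_distrib] at a0
  omega

end Pool.Agent.Lib.MP_12eaff_co.Frz.FB
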